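import Pool.Agent.Y685.SY.Stm

/-!
Extension by zero of a 1-form with compact support in a chart, and its exterior derivative
(job SY-EXT).
-/

set_option autoImplicit false
set_option linter.all false
set_option maxSynthPendingDepth 3

open scoped Manifold ContDiff Topology ENNReal
open MeasureTheory Set Metric
open Pool.Agent.Y519.AS (TwoForm)
open Pool.Agent.Helper831 (coordVec)
open Pool.Agent.Y685.SY

namespace Pool.Agent.Y141.SY

section euc
variable {E : Type*} [NormedAddCommGroup E] [NormedSpace ℝ E]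
  {F : Type*} [NormedAddCommGroup F] [NormedSpace ℝ F]

theorem snd_symm {f : E → F} {y : E} (hf : ContDiffAt ℝ ∞ f y) (a b : E) :
    fderiv ℝ (fderiv ℝ f) y a b = fderiv ℝ (fderiv ℝ f) y b a := by
  have h : IsSymmSndFDerivAt ℝ f y := hf.isSymmSndFDerivAt (by
    rw [minSmoothness_of_isRCLikeNormedField]
    exact WithTop.coe_le_coe.2 le_top)
  exact h a b

theorem cd_fderiv {f : E → F} {y : E} (hf : ContDiffAt ℝ ∞ f y) :
    ContDiffAt ℝ ∞ (fderiv ℝ f) y := hf.fderiv_right (m := ∞) (by simp)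

theorem cd_fderiv_apply {f : E → F} {y : E} (hf : ContDiffAt ℝ ∞ f y) (b : E) :
    ContDiffAt ℝ ∞ (fun z => fderiv ℝ f z b) y := (cd_fderiv hf).clm_apply contDiffAt_const

theorem hasFD_fderiv_apply {f : E → F} {y : E} (hf : ContDiffAt ℝ ∞ f y) (b : E) :
    HasFDerivAt (fun z => fderiv ℝ f z b)
      ((ContinuousLinearMap.apply ℝ F b).comp (fderiv ℝ (fderiv ℝ f) y)) y := by
  have h1 : DifferentiableAt ℝ (fderiv ℝ f) y := (cd_fderiv hf).differentiableAt (by simp)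
  exact (ContinuousLinearMap.apply ℝ F b).hasFDerivAt.comp y h1.hasFDerivAt

theorem fderiv_fderiv_apply {f : E → F} {y : E} (hf : ContDiffAt ℝ ∞ f y) (a b : E) :
    fderiv ℝ (fun z => fderiv ℝ f z b) y a = fderiv ℝ (fderiv ℝ f) y a b := by
  rw [(hasFD_fderiv_apply hf b).fderiv]
  rfl

/-- the symmetry of the second derivative -/
theorem ddz {f : E → F} {y : E} (hf : ContDiffAt ℝ ∞ f y) (a b : E) :
    fderiv ℝ (fun z => fderiv ℝ f z b) y a = fderiv ℝ (fun z => fderiv ℝ f z a) y b := by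
  rw [fderiv_fderiv_apply hf, fderiv_fderiv_apply hf, snd_symm hf]

theorem fderiv_pull {B : E → E →L[ℝ] ℝ} {f : E → E} {y : E} (hB : ContDiff ℝ ∞ B)
    (hf : ContDiffAt ℝ ∞ f y) (a b : E) :
    fderiv ℝ (fun z => B (f z) (fderiv ℝ f z b)) y a =
      fderiv ℝ B (f y) (fderiv ℝ f y a) (fderiv ℝ f y b) +
        B (f y) (fderiv ℝ (fderiv ℝ f) y a b) := by
  have h1 : HasFDerivAt (fun z => B (f z)) ((fderiv ℝ B (f y)).comp (fderiv ℝ f y)) y :=
    ((hB.differentiable (by simp)) (f y)).hasFDerivAt.comp y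
      (hf.differentiableAt (by simp)).hasFDerivAt
  rw [(h1.clm_apply (hasFD_fderiv_apply hf b)).fderiv]
  simp [add_comm]

theorem cd_pull {B : E → E →L[ℝ] ℝ} {f : E → E} {y : E} (hB : ContDiff ℝ ∞ B)
    (hf : ContDiffAt ℝ ∞ f y) (b : E) :
    ContDiffAt ℝ ∞ (fun z => B (f z) (fderiv ℝ f z b)) y :=
  (hB.contDiffAt.comp y hf).clm_apply (cd_fderiv_apply hf b)

end euc

section man
variable {E : Type} [NormedAddCommGroup E] [InnerProductSpace ℝ E] [FiniteDimensional ℝ E]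
  {M : Type} [TopologicalSpace M] [ChartedSpace E M]

/-- the exterior derivative of a 1-form on `E` -/
noncomputable def dB (B : E → E →L[ℝ] ℝ) (z : E) (a b : E) : ℝ :=
  fderiv ℝ B z a b - fderiv ℝ B z b a

/-- the exterior derivative of a 1-form on `E`, as a bilinear map -/
noncomputable def dBl (B : E → E →L[ℝ] ℝ) (z : E) : E →ₗ[ℝ] E →ₗ[ℝ] ℝ :=
  LinearMap.mk₂ ℝ (dB B z)
    (fun v v' w => by
      unfold dB
      rw [map_add, map_add, ContinuousLinearMap.add_apply]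
      ring)
    (fun c v w => by
      unfold dB
      rw [map_smul, map_smul, ContinuousLinearMap.smul_apply, smul_eq_mul,
        smul_eq_mul, smul_eq_mul]
      ring)
    (fun v w w' => by
      unfold dB
      rw [map_add, map_add, ContinuousLinearMap.add_apply]
      ring)
    (fun c v w => by
      unfold dB
      rw [map_smul, map_smul, ContinuousLinearMap.smul_apply, smul_eq_mul,
        smul_eq_mul, smul_eq_mul]
      ring)

/-- the derivative of the chart, as a linear map -/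
noncomputable def dE (e₀ : OpenPartialHomeomorph M E) (p : M) :
    TangentSpace 𝓘(ℝ, E) p →ₗ[ℝ] E :=
  (mfderiv 𝓘(ℝ, E) 𝓘(ℝ, E) e₀ p).toLinearMap

open scoped Classical in
/-- extension by zero of the 1-form `B` -/
noncomputable def ext1 (e₀ : OpenPartialHomeomorph M E) (B : E → E →L[ℝ] ℝ) : Cov E M := fun p =>
  if p ∈ e₀.source then (B (e₀ p)).toLinearMap.comp (dE e₀ p) else 0

open scoped Classical in
/-- extension by zero of the exterior derivative of `B` -/
noncomputable def ext2 (e₀ : OpenPartialHomeomorph M E) (B : E → E →L[ℝ] ℝ) : TwoForm E M where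
  form p := if p ∈ e₀.source then (dBl B (e₀ p)).compl₁₂ (dE e₀ p) (dE e₀ p) else 0
  alt p v := by
    split_ifs
    · exact sub_self _
    · rfl

theorem ext1_out {e₀ : OpenPartialHomeomorph M E} {B : E → E →L[ℝ] ℝ}
    {e : OpenPartialHomeomorph M E} {y : E} (hy : e.symm y ∉ e₀.source) (u : E) :
    co1 (ext1 e₀ B) e y u = 0 := by
  rw [co1_apply]
  unfold ext1
  rw [if_neg hy]
  rfl

theorem ext1_zero {e₀ : OpenPartialHomeomorph M E} {B : E → E →L[ℝ] ℝ}
    {e : OpenPartialHomeomorph M E} {y : E} (hy : e.symm y ∈ e₀.source →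
      B (e₀ (e.symm y)) = 0) (u : E) :
    co1 (ext1 e₀ B) e y u = 0 := by
  rw [co1_apply]
  unfold ext1
  split_ifs with h
  · rw [hy h]
    rfl
  · rfl

theorem ext2_out {e₀ : OpenPartialHomeomorph M E} {B : E → E →L[ℝ] ℝ}
    {e : OpenPartialHomeomorph M E} {y : E} (hy : e.symm y ∉ e₀.source) (a b : E) :
    (ext2 e₀ B).coeff e y a b = 0 := by
  unfold TwoForm.coeff ext2
  simp only [if_neg hy]
  rfl

variable [IsManifold 𝓘(ℝ, E) ∞ M]

theorem chart_id {e₀ : OpenPartialHomeomorph M E} (he : e₀ ∈ atlas E M) {y : E}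
    (hy : y ∈ e₀.target) (u : E) :
    mfderiv 𝓘(ℝ, E) 𝓘(ℝ, E) e₀ (e₀.symm y) (coordVec e₀ y u) = u := by
  have h1 : IsManifold 𝓘(ℝ, E) 1 M := IsManifold.of_le (m := 1) (n := ∞) (by simp)
  have hm := mdifferentiable_of_mem_atlas (I := 𝓘(ℝ, E)) he
  exact congrArg (fun L => L u) (hm.comp_symm_deriv hy)

theorem ext1_in {e₀ : OpenPartialHomeomorph M E} (he : e₀ ∈ atlas E M) {B : E → E →L[ℝ] ℝ}
    {y : E} (hy : y ∈ e₀.target) (u : E) : co1 (ext1 e₀ B) e₀ y u = B y u := by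
  rw [co1_apply]
  unfold ext1
  rw [if_pos (e₀.map_target hy)]
  show B (e₀ (e₀.symm y)) (mfderiv 𝓘(ℝ, E) 𝓘(ℝ, E) e₀ (e₀.symm y) (coordVec e₀ y u)) = B y u
  rw [chart_id he hy, e₀.right_inv hy]

theorem ext2_in {e₀ : OpenPartialHomeomorph M E} (he : e₀ ∈ atlas E M) {B : E → E →L[ℝ] ℝ}
    {y : E} (hy : y ∈ e₀.target) (a b : E) : (ext2 e₀ B).coeff e₀ y a b = dB B y a b := by
  unfold TwoForm.coeff ext2
  simp only [if_pos (e₀.map_target hy)]
  show dB B (e₀ (e₀.symm y)) (mfderiv 𝓘(ℝ, E) 𝓘(ℝ, E) e₀ (e₀.symm y) (coordVec e₀ y a))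
    (mfderiv 𝓘(ℝ, E) 𝓘(ℝ, E) e₀ (e₀.symm y) (coordVec e₀ y b)) = dB B y a b
  rw [chart_id he hy, chart_id he hy, e₀.right_inv hy]

/-- in another chart -/
theorem ext1_tr (h : S_TRANS E M) {e₀ e : OpenPartialHomeomorph M E} (he₀ : e₀ ∈ atlas E M)
    (he : e ∈ atlas E M) {B : E → E →L[ℝ] ℝ} {y : E} (hy : y ∈ trD e e₀) (u : E) :
    co1 (ext1 e₀ B) e y u = B (tr e e₀ y) (fderiv ℝ (tr e e₀) y u) := by
  obtain ⟨-, -, hm, -, -, h1, -⟩ := h e he e₀ he₀
  rw [h1 _ y hy, ext1_in he₀ (hm hy).1]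

theorem ext2_tr (h : S_TRANS E M) {e₀ e : OpenPartialHomeomorph M E} (he₀ : e₀ ∈ atlas E M)
    (he : e ∈ atlas E M) {B : E → E →L[ℝ] ℝ} {y : E} (hy : y ∈ trD e e₀) (a b : E) :
    (ext2 e₀ B).coeff e y a b =
      dB B (tr e e₀ y) (fderiv ℝ (tr e e₀) y a) (fderiv ℝ (tr e e₀) y b) := by
  obtain ⟨-, -, hm, -, h1, -, -⟩ := h e he e₀ he₀
  rw [h1 _ y hy, ext2_in he₀ (hm hy).1]

/-- the dichotomy -/
theorem dich [T2Space M] {e₀ e : OpenPartialHomeomorph M E} {B : E → E →L[ℝ] ℝ}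
    (hc : HasCompactSupport B) (hs : tsupport B ⊆ e₀.target) {y : E} (hy : y ∈ e.target)
    (h : e.symm y ∉ e₀.source) (u : E) : ∀ᶠ z in 𝓝 y, co1 (ext1 e₀ B) e z u = 0 := by
  have hC : IsCompact (e₀.symm '' tsupport B) := hc.isCompact.image_of_continuousOn
    (e₀.continuousOn_symm.mono hs)
  have hCs : e₀.symm '' tsupport B ⊆ e₀.source := by
    rintro _ ⟨z, hz, rfl⟩
    exact e₀.map_target (hs hz)
  have h1 : e.symm y ∈ (e₀.symm '' tsupport B)ᶜ := fun hh => h (hCs hh)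
  have h2 : ∀ᶠ z in 𝓝 y, e.symm z ∈ (e₀.symm '' tsupport B)ᶜ :=
    (e.symm.continuousAt hy).eventually_mem (hC.isClosed.isOpen_compl.mem_nhds h1)
  filter_upwards [h2] with z hz
  refine ext1_zero (fun hz' => ?_) u
  by_contra hne
  exact hz ⟨e₀ (e.symm z), subset_tsupport _ hne, e₀.left_inv hz'⟩

theorem co1_cd [T2Space M] (h : S_TRANS E M) {e₀ e : OpenPartialHomeomorph M E}
    (he₀ : e₀ ∈ atlas E M) (he : e ∈ atlas E M) {B : E → E →L[ℝ] ℝ} (hB : ContDiff ℝ ∞ B)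
    (hc : HasCompactSupport B) (hs : tsupport B ⊆ e₀.target) (u : E) {y : E}
    (hy : y ∈ e.target) : ContDiffAt ℝ ∞ (fun z => co1 (ext1 e₀ B) e z u) y := by
  by_cases hy' : e.symm y ∈ e₀.source
  · obtain ⟨ho, hcd, -⟩ := h e he e₀ he₀
    have hyD : y ∈ trD e e₀ := ⟨hy, hy'⟩
    refine (cd_pull hB (hcd.contDiffAt (ho.mem_nhds hyD)) u).congr_of_eventuallyEq ?_
    filter_upwards [ho.mem_nhds hyD] with z hz
    exact ext1_tr h he₀ he hz u
  · refine contDiffAt_const.congr_of_eventuallyEq (?_ : _ =ᶠ[𝓝 y] fun _ => (0 : ℝ))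
    exact dich hc hs hy hy' u

theorem formula [T2Space M] (h : S_TRANS E M) {e₀ e : OpenPartialHomeomorph M E}
    (he₀ : e₀ ∈ atlas E M) (he : e ∈ atlas E M) {B : E → E →L[ℝ] ℝ} (hB : ContDiff ℝ ∞ B)
    (hc : HasCompactSupport B) (hs : tsupport B ⊆ e₀.target) {y : E}
    (hy : y ∈ e.target) (a b : E) : (ext2 e₀ B).coeff e y a b =
      fderiv ℝ (fun z => co1 (ext1 e₀ B) e z b) y a -
        fderiv ℝ (fun z => co1 (ext1 e₀ B) e z a) y b := by
  by_cases hy' : e.symm y ∈ e₀.source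
  · obtain ⟨ho, hcd, -⟩ := h e he e₀ he₀
    have hyD : y ∈ trD e e₀ := ⟨hy, hy'⟩
    have hf : ContDiffAt ℝ ∞ (tr e e₀) y := hcd.contDiffAt (ho.mem_nhds hyD)
    have key : ∀ a b : E, fderiv ℝ (fun z => co1 (ext1 e₀ B) e z b) y a =
        fderiv ℝ B (tr e e₀ y) (fderiv ℝ (tr e e₀) y a) (fderiv ℝ (tr e e₀) y b) +
          B (tr e e₀ y) (fderiv ℝ (fderiv ℝ (tr e e₀)) y a b) := by
      intro a b
      rw [← fderiv_pull hB hf a b]
      have h1 : (fun z => co1 (ext1 e₀ B) e z b) =ᶠ[𝓝 y]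
          fun z => B (tr e e₀ z) (fderiv ℝ (tr e e₀) z b) := by
        filter_upwards [ho.mem_nhds hyD] with z hz
        exact ext1_tr h he₀ he hz b
      rw [h1.fderiv_eq]
    rw [key a b, key b a, ext2_tr h he₀ he hyD, snd_symm hf b a]
    unfold dB
    ring
  · have h0 : ∀ u : E, fderiv ℝ (fun z => co1 (ext1 e₀ B) e z u) y = 0 := by
      intro u
      have h1 : (fun z => co1 (ext1 e₀ B) e z u) =ᶠ[𝓝 y] fun _ => (0 : ℝ) := dich hc hs hy hy' u
      rw [h1.fderiv_eq, fderiv_const_apply]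
    rw [h0, h0, ext2_out hy']
    simp

end man

section main
variable (E : Type) [NormedAddCommGroup E] [InnerProductSpace ℝ E] [FiniteDimensional ℝ E]
  (M : Type) [TopologicalSpace M] [ChartedSpace E M] [IsManifold 𝓘(ℝ, E) ∞ M]

theorem t_EXT (h : S_TRANS E M) : S_EXT E M := by
  intro _ e₀ he₀ B hB hc hs
  have hcd : ∀ e ∈ atlas E M, ∀ u : E, ∀ y ∈ e.target,
      ContDiffAt ℝ ∞ (fun z => co1 (ext1 e₀ B) e z u) y := fun e he u y hy =>
    co1_cd h he₀ he hB hc hs u hy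
  have hfor : ∀ e ∈ atlas E M, ∀ y ∈ e.target, ∀ a b : E, (ext2 e₀ B).coeff e y a b =
      fderiv ℝ (fun z => co1 (ext1 e₀ B) e z b) y a -
        fderiv ℝ (fun z => co1 (ext1 e₀ B) e z a) y b := fun e he y hy a b =>
    formula h he₀ he hB hc hs hy a b
  have hev : ∀ e ∈ atlas E M, ∀ y ∈ e.target, ∀ a b : E,
      (fun z => (ext2 e₀ B).coeff e z a b) =ᶠ[𝓝 y] fun z =>
      fderiv ℝ (fun z => co1 (ext1 e₀ B) e z b) z a -
        fderiv ℝ (fun z => co1 (ext1 e₀ B) e z a) z b := by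
    intro e he y hy a b
    filter_upwards [e.open_target.mem_nhds hy] with z hz
    exact hfor e he z hz a b
  refine ⟨ext1 e₀ B, ext2 e₀ B, ?_, ?_, ?_, hfor, ?_, ?_⟩
  · intro e he u y hy
    exact (hcd e he u y hy).contDiffWithinAt
  · intro e he u w y hy
    refine ContDiffAt.contDiffWithinAt (ContDiffAt.congr_of_eventuallyEq ?_ (hev e he y hy u w))
    exact (cd_fderiv_apply (hcd e he w y hy) u).sub (cd_fderiv_apply (hcd e he u y hy) w)
  · intro e he y hy a b c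
    have key : ∀ a b c : E, fderiv ℝ (fun z => (ext2 e₀ B).coeff e z b c) y a =
        fderiv ℝ (fun z => fderiv ℝ (fun z => co1 (ext1 e₀ B) e z c) z b) y a -
          fderiv ℝ (fun z => fderiv ℝ (fun z => co1 (ext1 e₀ B) e z b) z c) y a := by
      intro a b c
      rw [(hev e he y hy b c).fderiv_eq]
      have d1 := (cd_fderiv_apply (hcd e he c y hy) b).differentiableAt (by simp)
      have d2 := (cd_fderiv_apply (hcd e he b y hy) c).differentiableAt (by simp)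
      have := fderiv_sub d1 d2
      exact congrArg (fun L => L a) this
    rw [key a b c, key b c a, key c a b, ddz (hcd e he c y hy) a b, ddz (hcd e he a y hy) b c,
      ddz (hcd e he b y hy) c a]
    ring
  · intro y hy a b
    exact ext2_in he₀ hy a b
  · intro e he y hy hy' a b
    exact ext2_out hy' a b

end main

end Pool.Agent.Y141.SY
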